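import Mathlib
import Pool.Agent.Q25.PLP.Stm

/-!
# Points, lines and planes: the global inequality (step GA of the project PLP)
-/

set_option autoImplicit false

open Finset Pool.Agent.Helper123.PLP Pool.Agent.Q25.PLP

namespace Pool.Agent.Q205.PLPGA

lemma sum_gg {P : Type} [Fintype P] [DecidableEq P] (L : Finset (Finset P))
    (c : Finset P → P → ℝ) (hc : IsCh L c) (w : P → ℝ) :
    ∑ x, gg L c x * w x = ∑ l ∈ L, ∑ x ∈ l, c l x * w x := by
  unfold gg
  simp only [Finset.sum_mul]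
  rw [Finset.sum_comm]
  apply Finset.sum_congr rfl
  intro l hl
  symm
  apply Finset.sum_subset (Finset.subset_univ l)
  intro x _ hx
  rw [hc.off l x hx, zero_mul]

/-- every ordered pair of different points is on exactly one line -/
lemma sum_pairs {P : Type} [Fintype P] [DecidableEq P] (G : Geo P) (f : P → P → ℝ)
    (hf : ∀ x, f x x = 0) :
    ∑ l ∈ G.L, ∑ x ∈ l, ∑ y ∈ l, f x y = ∑ x, ∑ y, f x y := by
  have h1 : ∀ l ∈ G.L, ∑ x ∈ l, ∑ y ∈ l, f x y =
      ∑ x : P, ∑ y : P, (if x ∈ l ∧ y ∈ l then f x y else 0) := by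
    intro l _
    rw [← Finset.sum_subset (Finset.subset_univ l)]
    · apply Finset.sum_congr rfl
      intro x hx
      rw [← Finset.sum_subset (Finset.subset_univ l)]
      · apply Finset.sum_congr rfl
        intro y hy
        simp [hx, hy]
      · intro y _ hy
        simp [hy]
    · intro x _ hx
      simp [hx]
  rw [Finset.sum_congr rfl h1, Finset.sum_comm]
  apply Finset.sum_congr rfl
  intro x _
  rw [Finset.sum_comm]
  apply Finset.sum_congr rfl
  intro y _
  by_cases hxy : x = y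
  · subst hxy
    simp [hf]
  · obtain ⟨l, hl, hxl, hyl⟩ := G.ex_line x y hxy
    rw [Finset.sum_eq_single l]
    · simp [hxl, hyl]
    · intro l' hl' hne
      rw [if_neg]
      rintro ⟨h1, h2⟩
      exact hne (G.uniq_line l' hl' l hl x y hxy h1 h2 hxl hyl)
    · intro h; exact absurd hl h

lemma sum_sq_diff {P : Type} [Fintype P] [DecidableEq P] (γ : P → ℝ) :
    ∑ x, ∑ y, (γ x - γ y) ^ 2 = 2 * (Fintype.card P : ℝ) * ∑ x, γ x ^ 2 - 2 * (∑ x, γ x) ^ 2 := by
  have h1 : ∀ x y : P, (γ x - γ y) ^ 2 = γ x ^ 2 + γ y ^ 2 - 2 * (γ x * γ y) := by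
    intro x y; ring
  simp only [h1, Finset.sum_sub_distrib, Finset.sum_add_distrib, Finset.sum_const, Finset.card_univ,
    nsmul_eq_mul, ← Finset.mul_sum, ← Finset.sum_mul]
  ring

theorem t_GA (h1 : S_G1) (h2 : S_G2) (h3 : S_G3) : S_GA := by
  intro P _ _ G c hc hsup hloc
  classical
  by_cases hn0 : Fintype.card P = 0
  · simp only [hn0]
    simp
  have hn : (0 : ℝ) < Fintype.card P := by
    have : 0 < Fintype.card P := Nat.pos_of_ne_zero hn0
    exact_mod_cast this
  set n : ℝ := (Fintype.card P : ℝ) with hndef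
  set g : P → ℝ := gg G.L c with hg
  set γ : P → ℝ := fun x => gg G.L c x / n with hγ
  set t : ℝ := (G.L.card : ℝ) with ht
  have hgγ : ∀ x, g x = n * γ x := by
    intro x
    simp only [hγ, hg]
    field_simp
  -- sum of g
  have hsg : ∑ x, g x = t := by
    have := sum_gg G.L c hc (fun _ => 1)
    simp only [mul_one] at this
    rw [hg, this, Finset.sum_congr rfl (fun l hl => hc.one l hl)]
    simp [ht]
  have hsγ : ∑ x, γ x = t / n := by
    rw [← hsg, Finset.sum_div]
  set S2 : ℝ := ∑ x, g x ^ 2 with hS2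
  have hsγ2 : ∑ x, γ x ^ 2 = S2 / n ^ 2 := by
    rw [hS2, Finset.sum_div]
    apply Finset.sum_congr rfl
    intro x _
    rw [hgγ x]; field_simp
  set W : ℝ := S2 - t ^ 2 / n with hW
  -- (a)
  have hLam : W ≤ ∑ h ∈ G.H, LamC h (inn G.L h) γ c := by
    rw [h2 P G γ c]
    have e1 : ∀ l ∈ G.L, ∑ z ∈ univ \ l, ((∑ x ∈ l, c l x * γ x) - γ z) =
        n * (∑ x ∈ l, c l x * γ x) - ∑ z, γ z +
          ∑ z ∈ l, (γ z - ∑ x ∈ l, c l x * γ x) := by
      intro l hl
      have hs := Finset.sum_sdiff (f := fun z => (∑ x ∈ l, c l x * γ x) - γ z)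
        (Finset.subset_univ l)
      have e2 : ∑ z, ((∑ x ∈ l, c l x * γ x) - γ z) = n * (∑ x ∈ l, c l x * γ x) - ∑ z, γ z := by
        rw [Finset.sum_sub_distrib, Finset.sum_const, Finset.card_univ, nsmul_eq_mul]
      have e3 : ∑ z ∈ l, (γ z - ∑ x ∈ l, c l x * γ x) =
          - ∑ z ∈ l, ((∑ x ∈ l, c l x * γ x) - γ z) := by
        rw [← Finset.sum_neg_distrib]
        apply Finset.sum_congr rfl; intro z _; ring
      rw [e3, ← e2, ← hs]
      ring
    rw [Finset.sum_congr rfl e1, Finset.sum_add_distrib, Finset.sum_sub_distrib,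
      ← Finset.mul_sum, Finset.sum_const, nsmul_eq_mul]
    have e4 : ∑ l ∈ G.L, ∑ x ∈ l, c l x * γ x = S2 / n := by
      rw [← sum_gg G.L c hc γ, hS2, Finset.sum_div]
      apply Finset.sum_congr rfl
      intro x _
      rw [← hg, hgγ x]; field_simp
    have e5 : 0 ≤ ∑ l ∈ G.L, ∑ z ∈ l, (γ z - ∑ x ∈ l, c l x * γ x) := by
      apply Finset.sum_nonneg
      intro l hl
      apply Finset.sum_nonneg
      intro z hz
      have e6 : ∑ x ∈ l, c l x * γ x ≤ ∑ x ∈ l, c l x * γ z := by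
        apply Finset.sum_le_sum
        intro x hx
        by_cases hcx : c l x = 0
        · rw [hcx]; simp
        · apply mul_le_mul_of_nonneg_left _ (hc.nn l x)
          have := hsup l hl x hx hcx z hz
          simp only [hγ]
          exact div_le_div_of_nonneg_right this hn.le
      rw [← Finset.sum_mul, hc.one l hl, one_mul] at e6
      linarith
    rw [e4, hsγ]
    have e7 : n * (S2 / n) = S2 := by field_simp
    rw [e7]
    have e8 : (G.L.card : ℝ) * (t / n) = t ^ 2 / n := by rw [← ht]; ring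
    rw [e8]
    linarith
  -- (b)
  have hQ : ∑ h ∈ G.H, QQ h (inn G.L h) γ ≤ W := by
    rw [h3 P G γ]
    have e1 : ∑ l ∈ G.L, ((Fintype.card P : ℝ) - l.card) * ∑ x ∈ l, ∑ z ∈ l, (γ x - γ z) ^ 2 ≤
        ∑ l ∈ G.L, n * ∑ x ∈ l, ∑ z ∈ l, (γ x - γ z) ^ 2 := by
      apply Finset.sum_le_sum
      intro l _
      apply mul_le_mul_of_nonneg_right
      · rw [← hndef]
        have : (0 : ℝ) ≤ l.card := Nat.cast_nonneg _
        linarith
      · apply Finset.sum_nonneg; intro x _
        apply Finset.sum_nonneg; intro z _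
        positivity
    rw [← Finset.mul_sum, sum_pairs G (fun x z => (γ x - γ z) ^ 2) (by intro x; simp),
      sum_sq_diff, hsγ, hsγ2, ← hndef] at e1
    have e2 : (1 / 2) * (n * (2 * n * (S2 / n ^ 2) - 2 * (t / n) ^ 2)) = W := by
      rw [hW]; field_simp
    linarith
  -- (c)
  have hPP : 3 / 2 * (G.H.card : ℝ) + W ≤ ∑ h ∈ G.H, PP h (inn G.L h) c := by
    have e1 : ∑ h ∈ G.H, (3 / 2 : ℝ) ≤ ∑ h ∈ G.H, (PP h (inn G.L h) c
        - 2 * LamC h (inn G.L h) γ c + QQ h (inn G.L h) γ) := by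
      apply Finset.sum_le_sum
      intro h hh
      exact hloc h hh
    rw [Finset.sum_add_distrib, Finset.sum_sub_distrib, ← Finset.mul_sum, Finset.sum_const,
      nsmul_eq_mul] at e1
    linarith
  have hG1 := h1 P G c hc.off
  rw [← hg] at hG1
  have hcs : ∑ l ∈ G.L, 1 / (l.card : ℝ) ≤ ∑ l ∈ G.L, ∑ x ∈ l, (c l x) ^ 2 := by
    apply Finset.sum_le_sum
    intro l hl
    have hlc : (0 : ℝ) < l.card := by
      have := G.two_le l hl
      exact_mod_cast (by omega : 0 < l.card)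
    have e1 := Finset.sum_mul_sq_le_sq_mul_sq l (fun _ => (1 : ℝ)) (fun x => c l x)
    simp only [one_mul, one_pow, Finset.sum_const, nsmul_eq_mul, mul_one] at e1
    rw [hc.one l hl] at e1
    rw [div_le_iff₀ hlc]
    linarith
  have e9 : ∑ l ∈ G.L, 1 / (l.card : ℝ) + 3 / 2 * (G.H.card : ℝ) ≤ t ^ 2 / n := by
    have : S2 = ∑ l ∈ G.L, ∑ x ∈ l, (c l x) ^ 2 + ∑ h ∈ G.H, PP h (inn G.L h) c := hG1
    linarith
  rw [le_div_iff₀ hn] at e9
  linarith

end Pool.Agent.Q205.PLPGA
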